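import Pool.Agent.FibReg.StatementDefs
import Pool.Agent.FibReg.Main
import Pool.Agent.FibReg.Reg

/-!
# Regularity of the fibres of a general linear projection

For a smooth projective variety `X ⊆ ℙ^r` of dimension `n` over an algebraically closed field of
characteristic zero and `c ≥ 1` with `n + c < r`, every fibre of a general linear projection
`X → ℙ^{n+c}` has Castelnuovo-Mumford regularity at most `n / c + 1`.
-/

open MvPolynomial FibReg

namespace Pool.Agent.Results.MP_9e4267_ag.FibreRegularity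

theorem result {k : Type*} [Field k] [IsAlgClosed k] [CharZero k] {r n c : ℕ} (hc : 1 ≤ c)
    (hr : n + c < r) (P : Ideal (MvPolynomial (Fin (r + 1)) k)) (hX : IsSmoothVariety P n) :
    ∃ Φ : MvPolynomial (Fin (n + c + 1) × Fin (r + 1)) k, Φ ≠ 0 ∧
      ∀ A : Matrix (Fin (n + c + 1)) (Fin (r + 1)) k,
        eval (fun im => A im.1 im.2) Φ ≠ 0 →
          A.rank = n + c + 1 ∧
          (∀ x : Fin (r + 1) → k, x ≠ 0 → (∀ G ∈ P, eval x G = 0) → A.mulVec x ≠ 0) ∧
          ∀ p : Fin (n + c + 1) → k, p ≠ 0 →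
            ∃ ρ : ℕ, IsRegularity (fibreIdeal P A p) ρ ∧ (ρ : ℚ) ≤ n / c + 1 := by
  classical
  have hι : Fintype.card (Fin (r + 1)) = n + 1 + (r - n) := by
    rw [Fintype.card_fin]
    omega
  have hκ : Fintype.card (Fin (n + c + 1)) = n + 1 + c := by
    rw [Fintype.card_fin]
    omega
  obtain ⟨Φ₀, hΦ₀, hgood⟩ := exists_good (κ := Fin (n + c + 1)) n c (r - n) hc hι hκ P
    hX.homogeneous (fun x hx hxP => (hX.smooth x hx hxP).ge)
  -- a maximal minor
  let σ : Fin (n + c + 1) → Fin (r + 1) := Fin.castLE (by omega)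
  have hσ : Function.Injective σ := Fin.castLE_injective _
  let Δ : MvPolynomial (Fin (n + c + 1) × Fin (r + 1)) k :=
    Matrix.det (Matrix.of fun i j => X (i, σ j))
  have hΔeval : ∀ A : Matrix (Fin (n + c + 1)) (Fin (r + 1)) k,
      eval (fun im => A im.1 im.2) Δ = Matrix.det (A.submatrix id σ) := by
    intro A
    show eval (fun im => A im.1 im.2) (Matrix.det (Matrix.of fun i j => X (i, σ j))) = _
    rw [RingHom.map_det]
    congr 1
    ext i j
    simp
  have hΔ : Δ ≠ 0 := by
    intro h0
    have h1 := hΔeval (Matrix.of fun i j => if j = σ i then 1 else 0)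
    rw [h0, map_zero] at h1
    have h2 : (Matrix.of fun (i : Fin (n + c + 1)) (j : Fin (r + 1)) =>
        if j = σ i then (1 : k) else 0).submatrix id σ = 1 := by
      ext i j
      simp only [Matrix.submatrix_apply, id_eq, Matrix.of_apply, Matrix.one_apply]
      by_cases hij : i = j
      · rw [if_pos hij, if_pos (by rw [hij])]
      · rw [if_neg hij, if_neg (fun h => hij (hσ h).symm)]
    rw [h2, Matrix.det_one] at h1
    exact zero_ne_one h1
  refine ⟨Φ₀ * Δ, mul_ne_zero hΦ₀ hΔ, ?_⟩
  intro A hA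
  rw [map_mul] at hA
  have hA1 : eval (fun im => A im.1 im.2) Φ₀ ≠ 0 := left_ne_zero_of_mul hA
  have hA2 : Matrix.det (A.submatrix id σ) ≠ 0 := by
    rw [← hΔeval]
    exact right_ne_zero_of_mul hA
  obtain ⟨⟨M, hM⟩, hfib⟩ := hgood (fun im => A im.1 im.2) hA1
  refine ⟨?_, ?_, ?_⟩
  · apply le_antisymm
    · exact (Matrix.rank_le_height A)
    · have h1 : (A.submatrix id σ).rank = n + c + 1 := by
        rw [Matrix.rank_of_isUnit _ ((Matrix.isUnit_iff_isUnit_det _).2 (isUnit_iff_ne_zero.2 hA2)),
          Fintype.card_fin]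
      exact h1.symm.le.trans (Matrix.rank_submatrix_le _ _ _)
  · intro x hx hxP hAx
    have hker : affIdeal P (fun i m => A i m) 0 ≤ RingHom.ker (eval x) := by
      unfold affIdeal
      refine sup_le ?_ ?_
      · intro G hG
        exact hxP G hG
      · rw [Ideal.span_le]
        rintro _ ⟨i, rfl⟩
        show eval x (lin (fun i m => A i m) i - C ((0 : Fin (n + c + 1) → k) i)) = 0
        have h1 := congrFun hAx i
        unfold lin
        simpa [Matrix.mulVec, dotProduct] using h1
    apply hx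
    funext m
    have h1 := hker (hM m)
    have h2 : x m ^ M = 0 := by
      have : eval x (X m ^ M : MvPolynomial (Fin (r + 1)) k) = 0 := h1
      simpa using this
    have h3 : M ≠ 0 := by
      rintro rfl
      simp at h2
    exact (pow_eq_zero_iff h3).1 h2
  · intro p hp
    obtain ⟨ρ, hρ, hle⟩ := exists_regularity P hX.homogeneous (fun i m => A i m) M hM p hp (n / c)
      (hfib p hp)
    refine ⟨ρ, hρ, ?_⟩
    have h1 : (ρ : ℚ) ≤ ((n / c : ℕ) : ℚ) + 1 := by exact_mod_cast hle
    have h2 : ((n / c : ℕ) : ℚ) ≤ (n : ℚ) / c := Nat.cast_div_le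
    linarith

end Pool.Agent.Results.MP_9e4267_ag.FibreRegularity
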